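import Mathlib
import Pool.Agent.helper57.RC.Final

set_option autoImplicit false

/-!
# Fixed real z-ultrafilters do not imply realcompactness in ZF

There is a model `(M, E)` of ZF containing a Tychonoff space `X` which is not realcompact, although
every z-ultrafilter on `X` with the countable intersection property is fixed.

The model is the following symmetric Cohen model. Add Cohen reals `x_{n,k}` (`n, k < ω`), and
consider the permutations of the indices `(n, k)` which preserve `n`, and the filter generated by
the groups of those permutations which fix all indices with first coordinate below `N` (`N < ω`).
Thus each set `D_n = {x_{n,k} : k < ω}` has an enumeration, but there is no sequence of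
enumerations. The space `X` is the set of all nonempty finite subsets of the union `D` of all `D_n`
with the topology of pointwise convergence (as a subspace of `2^D`). By symmetry, every continuous
real function `f` on `X` satisfies `f(x ∪ {d}) = f(x)` for all `d` in late sets `D_n`, and thus it
has a limit at the empty set, which is not in `X`. So `X` is not closed in any power of the line. On
the other hand, if all sets `{x : d ∈ x}` or their complements belong to a z-ultrafilter with the
countable intersection property, then they determine, for each `N`, the trace on
`D_0 ∪ ... ∪ D_N` of some point `x` in all its members, and the set of all points with this trace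
is a zero set, since `D_0 ∪ ... ∪ D_N` has an enumeration.
-/

namespace Pool.Agent.Results.MP_05264e_lc.NotProvableInZF

open Pool.Agent.helper57.Fc Pool.Agent.helper57.RC

/-- There is a model `(M, E)` of ZF, a real line `(R, L)` with a point `o` in `(M, E)`, and a
Tychonoff space `(X, T)` in `(M, E)` such that, in `(M, E)`, every z-ultrafilter on `(X, T)` with
the countable intersection property is fixed, but `(X, T)` is not realcompact. -/
theorem result : ∃ (M : Type) (E : M → M → Prop), IsZF E ∧ ∃ R L o X T : M,
    RealLine E R L ∧ E o R ∧ Tychonoff E X T R L ∧
    (∀ F, ZUltrafilter E X T R L o F → CIP E F → Fixed E F) ∧
    ¬ RealCompact E X T R L := exists_space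

end Pool.Agent.Results.MP_05264e_lc.NotProvableInZF
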